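import Pool.Agent.Run7.h858.CP.Basic

set_option autoImplicit false

namespace Pool.Agent.H11.CP

open Real
open Pool.Agent.H858.CP

lemma const_of_deriv {f : ℝ → ℝ} (hf : ∀ u, HasDerivAt f 0 u) (u v : ℝ) : f u = f v :=
  is_const_of_deriv_eq_zero (fun x => (hf x).differentiableAt) (fun x => (hf x).deriv) u v

theorem pG : PieceG := by
  intro Λ k hΛ hdet hode hper
  have D : ∀ n u i, HasDerivAt (fun t => Λ n t i) (Λ (n + 1) u i) u := fun n u i =>
    (hasDerivAt_pi.1 (hΛ n u)) i
  rcases le_or_gt k 0 with hk | hk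
  · exfalso
    have hp1 : ∀ u, Λ 1 (u + 2 * π) = Λ 1 u := by
      intro u
      have e := (hΛ 0 (u + 2 * π)).comp_add_const u (2 * π)
      have e' : (fun t => Λ 0 (t + 2 * π)) = Λ 0 := funext hper
      rw [e'] at e
      exact e.unique (hΛ 0 u)
    have hp2 : ∀ u, Λ 2 (u + 2 * π) = Λ 2 u := by
      intro u
      have e := (hΛ 1 (u + 2 * π)).comp_add_const u (2 * π)
      have e' : (fun t => Λ 1 (t + 2 * π)) = Λ 1 := funext hp1
      rw [e'] at e
      exact e.unique (hΛ 1 u)
    have key : ∀ i, Λ 2 0 i = 0 := by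
      intro i
      set F : ℝ → ℝ := fun u => Λ 1 u i * Λ 2 u i with hF
      have hF' : ∀ u, HasDerivAt F (Λ 2 u i * Λ 2 u i + (-k) * (Λ 1 u i * Λ 1 u i)) u := by
        intro u
        have := (D 1 u i).fun_mul (D 2 u i)
        refine this.congr_deriv ?_
        show Λ 2 u i * Λ 2 u i + Λ 1 u i * Λ 3 u i = _
        rw [hode u i]
        ring
      have hnn : ∀ u, 0 ≤ Λ 2 u i * Λ 2 u i + (-k) * (Λ 1 u i * Λ 1 u i) := fun u =>
        add_nonneg (mul_self_nonneg _) (mul_nonneg (by linarith) (mul_self_nonneg _))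
      have hmono : Monotone F := by
        refine monotone_of_deriv_nonneg (fun u => (hF' u).differentiableAt) fun u => ?_
        rw [(hF' u).deriv]
        exact hnn u
      have hFp : ∀ u, F (u + 2 * π) = F u := fun u => by
        simp only [hF, hp1, hp2]
      have hc : ∀ t ∈ Set.Ioo (-π) π, F t = F (-π) := by
        intro t ht
        apply le_antisymm
        · have h1 : F t ≤ F π := hmono ht.2.le
          have h2 : F π = F (-π) := by
            rw [← hFp (-π)]
            congr 1
            ring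
          linarith
        · exact hmono ht.1.le
      have h0 : HasDerivAt F 0 0 := by
        refine (hasDerivAt_const (0 : ℝ) (F (-π))).congr_of_eventuallyEq ?_
        filter_upwards [Ioo_mem_nhds (neg_lt_zero.2 pi_pos) pi_pos] with t ht using hc t ht
      have h1 := (hF' 0).unique h0
      have h2 : 0 ≤ (-k) * (Λ 1 0 i * Λ 1 0 i) :=
        mul_nonneg (by linarith) (mul_self_nonneg _)
      have h3 : Λ 2 0 i * Λ 2 0 i = 0 := by
        have := mul_self_nonneg (Λ 2 0 i)
        linarith
      exact mul_self_eq_zero.1 h3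
    have h := hdet 0
    unfold det3 at h
    rw [key 0, key 1, key 2] at h
    norm_num at h
  · set w : ℝ := √k with hw
    have hw0 : 0 < w := Real.sqrt_pos.2 hk
    have hwk : k = w * w := (Real.mul_self_sqrt hk.le).symm
    have hw' : w ≠ 0 := hw0.ne'
    have hE : ∀ u i, Λ 2 u i + k * Λ 0 u i = Λ 2 0 i + k * Λ 0 0 i := by
      intro u i
      refine const_of_deriv (f := fun u => Λ 2 u i + k * Λ 0 u i) (fun u => ?_) u 0
      refine ((D 2 u i).fun_add ((D 0 u i).const_mul k)).congr_deriv ?_
      show Λ 3 u i + k * Λ 1 u i = 0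
      rw [hode u i]
      ring
    set C0 : Fin 3 → ℝ := fun i => (Λ 2 0 i + k * Λ 0 0 i) / k with hC0
    set C1 : Fin 3 → ℝ := fun i => Λ 0 0 i - C0 i with hC1
    set C2 : Fin 3 → ℝ := fun i => Λ 1 0 i / w with hC2
    have hy2 : ∀ u i, Λ 2 u i = -(w * w) * (Λ 0 u i - C0 i) := by
      intro u i
      have h1 : k * C0 i = Λ 2 0 i + k * Λ 0 0 i := by
        simp only [hC0]
        field_simp
      rw [← hwk]
      linear_combination hE u i - h1
    have hcos : ∀ u, HasDerivAt (fun t : ℝ => cos (w * t)) (-sin (w * u) * w) u := by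
      intro u
      have h := ((hasDerivAt_id u).const_mul w).cos
      refine h.congr_deriv ?_
      simp
    have hsin : ∀ u, HasDerivAt (fun t : ℝ => sin (w * t)) (cos (w * u) * w) u := by
      intro u
      have h := ((hasDerivAt_id u).const_mul w).sin
      refine h.congr_deriv ?_
      simp
    have hf : ∀ u i, (Λ 0 u i - C0 i) * cos (w * u) - Λ 1 u i * sin (w * u) / w = C1 i := by
      intro u i
      have h : (Λ 0 u i - C0 i) * cos (w * u) - Λ 1 u i * sin (w * u) / w
          = (Λ 0 0 i - C0 i) * cos (w * 0) - Λ 1 0 i * sin (w * 0) / w := by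
        refine const_of_deriv
          (f := fun u => (Λ 0 u i - C0 i) * cos (w * u) - Λ 1 u i * sin (w * u) / w)
          (fun u => ?_) u 0
        refine ((((D 0 u i).sub_const (C0 i)).fun_mul (hcos u)).fun_sub
          (((D 1 u i).fun_mul (hsin u)).div_const w)).congr_deriv ?_
        show Λ 1 u i * cos (w * u) + (Λ 0 u i - C0 i) * (-sin (w * u) * w)
          - (Λ 2 u i * sin (w * u) + Λ 1 u i * (cos (w * u) * w)) / w = 0
        rw [hy2 u i]
        field_simp
        ring
      rw [h]
      simp [hC1]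
    have hg : ∀ u i, (Λ 0 u i - C0 i) * sin (w * u) + Λ 1 u i * cos (w * u) / w = C2 i := by
      intro u i
      have h : (Λ 0 u i - C0 i) * sin (w * u) + Λ 1 u i * cos (w * u) / w
          = (Λ 0 0 i - C0 i) * sin (w * 0) + Λ 1 0 i * cos (w * 0) / w := by
        refine const_of_deriv
          (f := fun u => (Λ 0 u i - C0 i) * sin (w * u) + Λ 1 u i * cos (w * u) / w)
          (fun u => ?_) u 0
        refine ((((D 0 u i).sub_const (C0 i)).fun_mul (hsin u)).fun_add
          (((D 1 u i).fun_mul (hcos u)).div_const w)).congr_deriv ?_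
        show Λ 1 u i * sin (w * u) + (Λ 0 u i - C0 i) * (cos (w * u) * w)
          + (Λ 2 u i * cos (w * u) + Λ 1 u i * (-sin (w * u) * w)) / w = 0
        rw [hy2 u i]
        field_simp
        ring
      rw [h]
      simp [hC2]
    refine ⟨w, C0, C1, C2, hw0, ?_, fun u i => ?_⟩
    · have h := hdet 0
      have e1 : ∀ i, Λ 0 0 i = C0 i + C1 i := fun i => by simp [hC1]
      have e2 : ∀ i, Λ 1 0 i = w * C2 i := fun i => by
        simp only [hC2]
        field_simp
      have e3 : ∀ i, Λ 2 0 i = -(w * w) * C1 i := fun i => hy2 0 i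
      unfold det3 at h ⊢
      rw [e1 0, e1 1, e1 2, e2 0, e2 1, e2 2, e3 0, e3 1, e3 2] at h
      linear_combination h
    · have hs := sin_sq_add_cos_sq (w * u)
      have h1 := hf u i
      have h2 := hg u i
      rw [← h1, ← h2]
      have : (Λ 1 u i * sin (w * u) / w) * cos (w * u)
          = (Λ 1 u i * cos (w * u) / w) * sin (w * u) := by ring
      linear_combination (-(Λ 0 u i - C0 i)) * hs + this

end Pool.Agent.H11.CP
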