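import Pool.Agent.Run7.h858.CP.Basic

set_option autoImplicit false

namespace Pool.Agent.H11.CP

open Real
open Pool.Agent.H858.CP

lemma step {Λ : ℕ → ℝ → Fin 3 → ℝ} {p : ℕ → ℝ → ℝ} (hΛ : Jet3 Λ)
    (hode : ∀ u i, Λ 3 u i = -(p 0 u) * Λ 1 u i + p 1 u / 3 * Λ 0 u i)
    (k : ℕ) (a b c a' b' c' A B C : ℝ → ℝ)
    (h : ∀ u i, Λ k u i = a u * Λ 0 u i + b u * Λ 1 u i + c u * Λ 2 u i)
    (ha : ∀ u, HasDerivAt a (a' u) u) (hb : ∀ u, HasDerivAt b (b' u) u)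
    (hc : ∀ u, HasDerivAt c (c' u) u)
    (hA : ∀ u, A u = a' u + c u * (p 1 u / 3)) (hB : ∀ u, B u = a u + b' u - c u * p 0 u)
    (hC : ∀ u, C u = b u + c' u) :
    ∀ u i, Λ (k + 1) u i = A u * Λ 0 u i + B u * Λ 1 u i + C u * Λ 2 u i := by
  intro u i
  have e0 : HasDerivAt (fun t => Λ 0 t i) (Λ 1 u i) u := (hasDerivAt_pi.1 (hΛ 0 u)) i
  have e1 : HasDerivAt (fun t => Λ 1 t i) (Λ 2 u i) u := (hasDerivAt_pi.1 (hΛ 1 u)) i
  have e2 : HasDerivAt (fun t => Λ 2 t i) (Λ 3 u i) u := (hasDerivAt_pi.1 (hΛ 2 u)) i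
  have ek : HasDerivAt (fun t => Λ k t i) (Λ (k + 1) u i) u := (hasDerivAt_pi.1 (hΛ k u)) i
  have e := (((ha u).fun_mul e0).fun_add ((hb u).fun_mul e1)).fun_add ((hc u).fun_mul e2)
  have e' : HasDerivAt (fun t => Λ k t i) _ u := e.congr_of_eventuallyEq
    (Filter.Eventually.of_forall fun t => h t i)
  rw [ek.unique e', hode u i, hA, hB, hC]
  ring

lemma cA_of {Λ : ℕ → ℝ → Fin 3 → ℝ} (hdet : ∀ u, det3 (Λ 0 u) (Λ 1 u) (Λ 2 u) = 1)
    (k : ℕ) (u a b c : ℝ)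
    (h : ∀ i, Λ k u i = a * Λ 0 u i + b * Λ 1 u i + c * Λ 2 u i) : cA Λ u (Λ k u) = b := by
  have := hdet u
  unfold cA
  unfold det3 at *
  rw [h 0, h 1, h 2]
  linear_combination b * this

lemma cB_of {Λ : ℕ → ℝ → Fin 3 → ℝ} (hdet : ∀ u, det3 (Λ 0 u) (Λ 1 u) (Λ 2 u) = 1)
    (k : ℕ) (u a b c : ℝ)
    (h : ∀ i, Λ k u i = a * Λ 0 u i + b * Λ 1 u i + c * Λ 2 u i) : cB Λ u (Λ k u) = c := by
  have := hdet u
  unfold cB
  unfold det3 at *
  rw [h 0, h 1, h 2]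
  linear_combination c * this

theorem pP7 : PieceP7 := by
  intro Λ p hΛ hp hdet hode hp3 hrel
  have d0 : ∀ u, HasDerivAt (p 0) (p 1 u) u := fun u => hp 0 u
  have d1 : ∀ u, HasDerivAt (p 1) (p 2 u) u := fun u => hp 1 u
  have d2 : ∀ u, HasDerivAt (p 2) (-(p 0 u * p 1 u) / 4) u := fun u => (hp3 u) ▸ hp 2 u
  have dc : ∀ (r : ℝ) (u : ℝ), HasDerivAt (fun _ : ℝ => r) 0 u := fun r u => hasDerivAt_const u r
  have h3 : ∀ u i, Λ 3 u i = (p 1 u / 3) * Λ 0 u i + (-(p 0 u)) * Λ 1 u i + 0 * Λ 2 u i := by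
    intro u i
    rw [hode u i]
    ring
  have h4 := step hΛ hode 3 (fun u => p 1 u / 3) (fun u => -(p 0 u)) (fun _ => 0)
    (fun u => p 2 u / 3) (fun u => -(p 1 u)) (fun _ => 0)
    (fun u => p 2 u / 3) (fun u => -(2 / 3) * p 1 u) (fun u => -(p 0 u)) h3
    (fun u => (d1 u).div_const 3) (fun u => (d0 u).fun_neg) (fun u => dc 0 u)
    (fun u => by ring) (fun u => by ring) (fun u => by ring)
  have h5 := step hΛ hode 4 _ _ _
    (fun u => (-(p 0 u * p 1 u) / 4) / 3) (fun u => -(2 / 3) * p 2 u) (fun u => -(p 1 u))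
    (fun u => -(5 / 12) * (p 0 u * p 1 u)) (fun u => p 0 u * p 0 u - p 2 u / 3)
    (fun u => -(5 / 3) * p 1 u) h4
    (fun u => (d2 u).div_const 3) (fun u => (d1 u).const_mul _) (fun u => (d0 u).fun_neg)
    (fun u => by ring) (fun u => by ring) (fun u => by ring)
  have h6 := step hΛ hode 5 _ _ _
    (fun u => -(5 / 12) * (p 1 u * p 1 u + p 0 u * p 2 u))
    (fun u => (p 1 u * p 0 u + p 0 u * p 1 u) - (-(p 0 u * p 1 u) / 4) / 3)
    (fun u => -(5 / 3) * p 2 u)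
    (fun u => -(5 / 12) * (p 0 u * p 2 u) - (35 / 36) * (p 1 u * p 1 u))
    (fun u => (10 / 3) * (p 0 u * p 1 u))
    (fun u => p 0 u * p 0 u - 2 * p 2 u) h5
    (fun u => ((d0 u).fun_mul (d1 u)).const_mul _)
    (fun u => ((d0 u).fun_mul (d0 u)).fun_sub ((d2 u).div_const 3))
    (fun u => (d1 u).const_mul _)
    (fun u => by ring) (fun u => by ring) (fun u => by ring)
  have h7 := step hΛ hode 6 _ _ _
    (fun u => -(5 / 12) * (p 1 u * p 2 u + p 0 u * (-(p 0 u * p 1 u) / 4))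
      - (35 / 36) * (p 2 u * p 1 u + p 1 u * p 2 u))
    (fun u => (10 / 3) * (p 1 u * p 1 u + p 0 u * p 2 u))
    (fun u => (p 1 u * p 0 u + p 0 u * p 1 u) - 2 * (-(p 0 u * p 1 u) / 4))
    (fun u => (7 / 16) * (p 0 u * p 0 u * p 1 u) - (109 / 36) * (p 1 u * p 2 u))
    (fun u => (59 / 12) * (p 0 u * p 2 u) - p 0 u * p 0 u * p 0 u + (85 / 36) * (p 1 u * p 1 u))
    (fun u => (35 / 6) * (p 0 u * p 1 u)) h6
    (fun u => (((d0 u).fun_mul (d2 u)).const_mul _).fun_sub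
      (((d1 u).fun_mul (d1 u)).const_mul _))
    (fun u => ((d0 u).fun_mul (d1 u)).const_mul _)
    (fun u => ((d0 u).fun_mul (d0 u)).fun_sub ((d2 u).const_mul _))
    (fun u => by ring) (fun u => by ring) (fun u => by ring)
  have h8 := step hΛ hode 7 _ _ _
    (fun u => (7 / 16) * ((p 1 u * p 0 u + p 0 u * p 1 u) * p 1 u + p 0 u * p 0 u * p 2 u)
      - (109 / 36) * (p 2 u * p 2 u + p 1 u * (-(p 0 u * p 1 u) / 4)))
    (fun u => (59 / 12) * (p 1 u * p 2 u + p 0 u * (-(p 0 u * p 1 u) / 4))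
      - ((p 1 u * p 0 u + p 0 u * p 1 u) * p 0 u + p 0 u * p 0 u * p 1 u)
      + (85 / 36) * (p 2 u * p 1 u + p 1 u * p 2 u))
    (fun u => (35 / 6) * (p 1 u * p 1 u + p 0 u * p 2 u))
    (fun u => (515 / 144) * (p 0 u * p 1 u * p 1 u) + (7 / 16) * (p 0 u * p 0 u * p 2 u)
      - (109 / 36) * (p 2 u * p 2 u))
    (fun u => -(77 / 8) * (p 0 u * p 0 u * p 1 u) + (119 / 18) * (p 1 u * p 2 u))
    (fun u => (43 / 4) * (p 0 u * p 2 u) - p 0 u * p 0 u * p 0 u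
      + (295 / 36) * (p 1 u * p 1 u)) h7
    (fun u => ((((d0 u).fun_mul (d0 u)).fun_mul (d1 u)).const_mul _).fun_sub
      (((d1 u).fun_mul (d2 u)).const_mul _))
    (fun u => ((((d0 u).fun_mul (d2 u)).const_mul _).fun_sub
      (((d0 u).fun_mul (d0 u)).fun_mul (d0 u))).fun_add
      (((d1 u).fun_mul (d1 u)).const_mul _))
    (fun u => ((d0 u).fun_mul (d1 u)).const_mul _)
    (fun u => by ring) (fun u => by ring) (fun u => by ring)
  have h9 := step hΛ hode 8 _ _ _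
    (fun u => (515 / 144) * ((p 1 u * p 1 u + p 0 u * p 2 u) * p 1 u + p 0 u * p 1 u * p 2 u)
      + (7 / 16) * ((p 1 u * p 0 u + p 0 u * p 1 u) * p 2 u
        + p 0 u * p 0 u * (-(p 0 u * p 1 u) / 4))
      - (109 / 36) * ((-(p 0 u * p 1 u) / 4) * p 2 u + p 2 u * (-(p 0 u * p 1 u) / 4)))
    (fun u => -(77 / 8) * ((p 1 u * p 0 u + p 0 u * p 1 u) * p 1 u + p 0 u * p 0 u * p 2 u)
      + (119 / 18) * (p 2 u * p 2 u + p 1 u * (-(p 0 u * p 1 u) / 4)))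
    (fun u => (43 / 4) * (p 1 u * p 2 u + p 0 u * (-(p 0 u * p 1 u) / 4))
      - ((p 1 u * p 0 u + p 0 u * p 1 u) * p 0 u + p 0 u * p 0 u * p 1 u)
      + (295 / 36) * (p 2 u * p 1 u + p 1 u * p 2 u))
    _ _
    (fun u => -(245 / 16) * (p 0 u * p 0 u * p 1 u) + (135 / 4) * (p 1 u * p 2 u)) h8
    (fun u => (((((d0 u).fun_mul (d1 u)).fun_mul (d1 u)).const_mul _).fun_add
      ((((d0 u).fun_mul (d0 u)).fun_mul (d2 u)).const_mul _)).fun_sub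
      (((d2 u).fun_mul (d2 u)).const_mul _))
    (fun u => ((((d0 u).fun_mul (d0 u)).fun_mul (d1 u)).const_mul _).fun_add
      (((d1 u).fun_mul (d2 u)).const_mul _))
    (fun u => ((((d0 u).fun_mul (d2 u)).const_mul _).fun_sub
      (((d0 u).fun_mul (d0 u)).fun_mul (d0 u))).fun_add
      (((d1 u).fun_mul (d1 u)).const_mul _))
    (fun u => rfl) (fun u => rfl) (fun u => by ring)
  intro u
  have r := (hrel u).r7
  rw [cB_of hdet 9 u _ _ _ (h9 u), cB_of hdet 7 u _ _ _ (h7 u), cB_of hdet 6 u _ _ _ (h6 u),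
    cB_of hdet 5 u _ _ _ (h5 u), cB_of hdet 4 u _ _ _ (h4 u),
    cA_of hdet 3 u _ _ _ (h3 u), cA_of hdet 4 u _ _ _ (h4 u), cA_of hdet 5 u _ _ _ (h5 u),
    cA_of hdet 6 u _ _ _ (h6 u), cA_of hdet 8 u _ _ _ (h8 u)] at r
  linear_combination 36288 * r

end Pool.Agent.H11.CP
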